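import Mathlib
import Pool.Agent.EDG.Stmts
import Pool.Agent.EDG.StmtsC
import Pool.Agent.Helper87_EDG.Qd
import Pool.Agent.Helper27_EDG.EVI
import Pool.Agent.Helper53_EDG.GRL
import Pool.Agent.Helper65_EDG.PRX
import Pool.Agent.Helper48_EDG.COD
import Pool.Agent.Helper32_EDG.PRE
import Pool.Agent.Helper15_EDG.DIS
import Pool.Agent.Helper6_EDG.LOW
import Pool.Agent.Helper10_EDG.FAC
import Pool.Agent.Helper41_EDG.DUA
import Pool.Agent.Helper32_EDG.HSU
import Pool.Agent.Helper97_EDG.CYI
import Pool.Agent.Helper44_EDG.CYK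
import Pool.Agent.Helper60_EDG.NCZ
import Pool.Agent.Helper95_EDG.RCN
import Pool.Agent.Helper77_EDG.BIG
import Pool.Agent.Helper98_EDG.CPL
import Pool.Agent.Helper38_EDG.BGA

/-! EDG row CMP (proof by helper15, adapted to the final form of `CmpStmt`): from the component bound
over the alpha line to the form used by blocks (1)-(5). -/

set_option autoImplicit false

namespace Pool.Agent.EDG.H30

open Polynomial

/-- the coordinate change `y = x - α` -/
noncomputable def T0 : ℤ[X][X] →+* ℂ[X][X] := Pool.Agent.EDG.ev (C (X : ℂ[X])) (X - C (X : ℂ[X]))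

lemma T0_X : T0 (X : ℤ[X][X]) = X - C (X : ℂ[X]) := by simp [T0]

lemma T0_C (p : ℤ[X]) : T0 (C p) = C (p.map (Int.castRingHom ℂ)) := by
  have h : T0.comp (C : ℤ[X] →+* ℤ[X][X]) = (C : ℂ[X] →+* ℂ[X][X]).comp (mapRingHom (Int.castRingHom ℂ)) := by
    apply Polynomial.ringHom_ext'
    · exact RingHom.ext_int _ _
    · show T0 (C X) = C ((X : ℤ[X]).map (Int.castRingHom ℂ))
      rw [T0, ev_C, aeval_X, map_X]
  exact congrArg (fun f => f p) h

lemma T0_eq (p : ℤ[X][X]) :
    T0 p = (p.map (mapRingHom (Int.castRingHom ℂ))).comp (X - C (X : ℂ[X])) := by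
  have h : T0 = (compRingHom (X - C (X : ℂ[X]))).comp (mapRingHom (mapRingHom (Int.castRingHom ℂ))) := by
    apply Polynomial.ringHom_ext
    · intro a
      rw [T0_C]
      simp
    · rw [T0_X]
      simp
  rw [h]
  simp

lemma T0_Fit (k : ℕ) : T0 (Fit k - X) = C.phiA k := by
  have h1 : ∀ k, T0 (Fit k) + C (X : ℂ[X]) = (C.itc ℂ k).map (compRingHom (X - X ^ 2)) := by
    intro k
    rw [T0, ev_Fit]
    induction k with
    | zero => simp [it_zero, C.itc]
    | succ k ih =>
      rw [it_succ, C.itc, Polynomial.map_add, Polynomial.map_pow, ← ih]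
      simp only [map_C, coe_compRingHom_apply, X_comp, C_sub, C_pow]
      ring
  rw [map_sub, T0_X, C.phiA, C.phi, Polynomial.map_sub, ← h1 k, map_X]
  ring

lemma T0_monic {p : ℤ[X][X]} (hp : p.Monic) : (T0 p).Monic ∧ (T0 p).natDegree = p.natDegree := by
  rw [T0_eq]
  have h1 : (p.map (mapRingHom (Int.castRingHom ℂ))).Monic := hp.map _
  refine ⟨h1.comp (monic_X_sub_C _) (by rw [natDegree_X_sub_C]; norm_num), ?_⟩
  rw [natDegree_comp, natDegree_X_sub_C, mul_one, hp.natDegree_map]

/-- resultants of a monic irreducible polynomial with a polynomial it does not divide -/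
lemma res_ne {R : Type*} [CommRing R] [IsDomain R] [IsIntegrallyClosed R] (P G : R[X]) (hP : P.Monic)
    (hirr : Irreducible P) (hn : ¬ P ∣ G) : resultant P G ≠ 0 := by
  set K := FractionRing R
  have hinj : Function.Injective (algebraMap R K) := IsFractionRing.injective R K
  have h1 : Irreducible (P.map (algebraMap R K)) :=
    (hP.irreducible_iff_irreducible_map_fraction_map (K := K)).mp hirr
  have h2 : ¬ P.map (algebraMap R K) ∣ G.map (algebraMap R K) := by
    intro h
    exact hn ((Polynomial.map_dvd_map _ hinj hP).mp h)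
  have h3 : IsCoprime (P.map (algebraMap R K)) (G.map (algebraMap R K)) :=
    (EuclideanDomain.dvd_or_coprime _ _ h1).resolve_left h2
  have h4 := resultant_ne_zero _ _ h3
  rw [natDegree_map_eq_of_injective hinj, natDegree_map_eq_of_injective hinj, resultant_map_map] at h4
  intro h5
  apply h4
  rw [h5, map_zero]

lemma res_ne' {R : Type*} [CommRing R] [IsDomain R] (P G A B : R[X]) (r : R) (hr : r ≠ 0)
    (h : P * A + G * B = C r) : resultant P G ≠ 0 := by
  set K := FractionRing R
  have hinj : Function.Injective (algebraMap R K) := IsFractionRing.injective R K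
  have h3 : IsCoprime (P.map (algebraMap R K)) (G.map (algebraMap R K)) := by
    have hr' : algebraMap R K r ≠ 0 := by
      intro h0
      exact hr (hinj (by rw [h0, map_zero]))
    refine ⟨C (algebraMap R K r)⁻¹ * A.map (algebraMap R K), C (algebraMap R K r)⁻¹ * B.map (algebraMap R K), ?_⟩
    have h1 := congrArg (Polynomial.map (algebraMap R K)) h
    rw [Polynomial.map_add, Polynomial.map_mul, Polynomial.map_mul, map_C] at h1
    calc C (algebraMap R K r)⁻¹ * A.map (algebraMap R K) * P.map (algebraMap R K) +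
          C (algebraMap R K r)⁻¹ * B.map (algebraMap R K) * G.map (algebraMap R K)
        = C (algebraMap R K r)⁻¹ * (P.map (algebraMap R K) * A.map (algebraMap R K) +
            G.map (algebraMap R K) * B.map (algebraMap R K)) := by ring
      _ = 1 := by rw [h1, ← C_mul, inv_mul_cancel₀ hr', C_1]
  have h4 := resultant_ne_zero _ _ h3
  rw [natDegree_map_eq_of_injective hinj, natDegree_map_eq_of_injective hinj, resultant_map_map] at h4
  intro h5
  apply h4
  rw [h5, map_zero]

theorem cmp (hBGA : C.BgaStmt) : CmpStmt := by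
  intro n m₀ Ψ hn hirr hmon hdvd hper hm₀
  have hdeg : 0 < Ψ.natDegree := by
    rcases Nat.eq_zero_or_pos Ψ.natDegree with h0 | h0
    · exact absurd (by rw [hmon.natDegree_eq_zero.mp h0]; exact isUnit_one) hirr.not_isUnit
    · exact h0
  have key : ∀ m, 2 * Ψ.natDegree ≤ 2 ^ m → n ≤ m + n.primeFactors.card := by
    intro m hm
    have hT := T0_monic hmon
    refine hBGA n m (T0 Ψ) hn hT.1 ?_ (by rw [hT.2]; exact hdeg) ?_ (by rw [hT.2]; exact hm)
    · rw [← T0_Fit]
      exact map_dvd T0 hdvd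
    · intro p hp
      have hpp := Nat.prime_of_mem_primeFactors hp
      have hpd := Nat.dvd_of_mem_primeFactors hp
      have hk0 : 0 < n / p := Nat.div_pos (Nat.le_of_dvd hn hpd) hpp.pos
      have hkn : n / p < n := Nat.div_lt_self hn hpp.one_lt
      have h1 := res_ne Ψ (Fit (n / p) - X) hmon hirr (hper _ hk0 hkn)
      obtain ⟨A, B, -, -, hAB⟩ := exists_mul_add_mul_eq_C_resultant Ψ (Fit (n / p) - X) le_rfl le_rfl
        (Or.inl hdeg.ne')
      have h2 := congrArg T0 hAB
      rw [map_add, map_mul, map_mul, T0_Fit, T0_C] at h2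
      refine res_ne' _ _ (T0 A) (T0 B) _ ?_ h2
      intro h3
      apply h1
      exact (Polynomial.map_injective _ (RingHom.injective_int (Int.castRingHom ℂ)))
        (by rw [h3, Polynomial.map_zero])
  exact key m₀ hm₀

/-- **CMP**, all hypotheses discharged. -/
theorem cmp_all : CmpStmt :=
  cmp
    (Pool.Agent.EDG.H38.bga
      (Pool.Agent.EDG.H77.big Pool.Agent.EDG.H27.evi Pool.Agent.EDG.H53.grl
        (Pool.Agent.EDG.H15.dis Pool.Agent.EDG.H27.evi Pool.Agent.EDG.H65.prx
          (Pool.Agent.EDG.H48.cod Pool.Agent.EDG.H65.prx) Pool.Agent.EDG.H32.pre)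
        (Pool.Agent.EDG.H6.low Pool.Agent.EDG.H27.evi Pool.Agent.EDG.H53.grl Pool.Agent.EDG.H65.prx)
        (Pool.Agent.EDG.H10.fac Pool.Agent.EDG.H27.evi)
        (Pool.Agent.EDG.H60.ncz Pool.Agent.EDG.H27.evi Pool.Agent.EDG.H41.dua Pool.Agent.EDG.H32.hsu
          (Pool.Agent.EDG.H97.cyi Pool.Agent.EDG.H87.qdi)
          (Pool.Agent.EDG.H44.cyk Pool.Agent.EDG.H27.evi Pool.Agent.EDG.H87.qdk))
        Pool.Agent.EDG.H95.rcn)
      (Pool.Agent.EDG.H98.cpl Pool.Agent.EDG.H27.evi))

end Pool.Agent.EDG.H30
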