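import Pool.Agent.EDG.Stmts

/-! Squad EDG: the output COM of blocks (1)-(5) (helper30). -/

set_option autoImplicit false

namespace Pool.Agent.EDG.H30

open Polynomial Finset

theorem Fit_monic (k : ℕ) : (Fit k).Monic ∧ (Fit k).natDegree = 2 ^ k := by
  induction k with
  | zero => simp [Fit, monic_X]
  | succ k ih =>
    obtain ⟨h1, h2⟩ := ih
    refine ⟨h1.comp F_monic (by rw [F_natDegree]; norm_num), ?_⟩
    rw [Fit, natDegree_comp, h2, F_natDegree, pow_succ]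

theorem Fit_sub_X_monic {n : ℕ} (hn : 0 < n) : (Fit n - X).Monic := by
  obtain ⟨h1, h2⟩ := Fit_monic n
  apply h1.sub_of_left
  rw [degree_X, degree_eq_natDegree h1.ne_zero, h2]
  have h3 : 1 < 2 ^ n := Nat.one_lt_two_pow (by omega)
  exact_mod_cast h3

theorem com (hRel : RelStmt) (hMoa : MoaStmt) (hMob : MobStmt) (hUna : UnaStmt) (hRdx : RdxStmt)
    (hUni : UniStmt) (hHba : HbaStmt) (hHbc : HbcStmt) (hMin : MinStmt) (hRnk : RnkStmt)
    (hSyl : SylStmt) (hBzm : BzmStmt) (hBez : BezStmt) (hInv : InvStmt) (hPer : PerStmt)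
    (hExn : ExnStmt) : ComStmt := by
  intro n g hc μ η l h1 h2 h3 h4
  obtain ⟨Θ, hr, hF, hv⟩ := hRel n g hc μ η l h1 h2 h3
  have una : Una := hUna hMoa hMob
  have hD := hc.natDegree_pos
  obtain ⟨hdeg, hdX⟩ := hRdx _ _ Θ hF (by omega) (by omega)
  obtain ⟨Ψ, hirr, hdvd, hDΨ, hcard, huniq⟩ :=
    hUni una n g hc (2 * l + 1) Θ hdeg hr hdX (by omega) hv
  have hbez : Ψ ∣ Θ.comp F :=
    hBez una hMob hMoa hRdx hHba hHbc hMin hRnk hSyl hBzm n g hc (2 * l + 1) η Θ Ψ (by omega) h1 hF hr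
      hv hirr hdvd hDΨ (by omega)
  have hΘ0 : Θ ≠ 0 := by
    rintro rfl
    exact hr (map_zero _)
  have hm : 2 * l + 1 ≤ (Vn n g Ψ).card := by omega
  have hinv := hInv n g hc (2 * l + 1) Θ Ψ hΘ0 hirr hbez hm huniq
  obtain ⟨p, hp, hpd⟩ := hPer Ψ hirr (lt_of_lt_of_le hD hDΨ) hinv
  have hne : (Vn n g Ψ).Nonempty := card_pos.mp (by omega)
  obtain ⟨i, hi⟩ := hne
  obtain ⟨e1, e2⟩ := hExn n g hc Ψ i p hirr (mem_Vn.mp hi).2 hp hpd
  -- make it monic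
  obtain ⟨S, hS⟩ := e1
  have hmon := Fit_sub_X_monic hc.npos
  have hlc : IsUnit Ψ.leadingCoeff := by
    have : (Fit n - X).leadingCoeff = Ψ.leadingCoeff * S.leadingCoeff := by
      rw [hS, leadingCoeff_mul]
    rw [hmon.leadingCoeff] at this
    exact IsUnit.of_mul_eq_one _ this.symm
  obtain ⟨u, hu⟩ := hlc
  have hass : Associated Ψ (C ((u⁻¹ : ℤ[X]ˣ) : ℤ[X]) * Ψ) := by
    refine ⟨(u⁻¹).map (C : ℤ[X] →+* ℤ[X][X]).toMonoidHom, ?_⟩
    simp [mul_comm]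
  refine ⟨C ((u⁻¹ : ℤ[X]ˣ) : ℤ[X]) * Ψ, hass.irreducible hirr, ?_, ?_, ?_, ?_⟩
  · unfold Monic
    rw [leadingCoeff_mul, leadingCoeff_C, ← hu]
    simp
  · exact hass.symm.dvd.trans ⟨S, hS⟩
  · intro k hk hkn hd
    exact e2 k hk hkn (hass.dvd.trans hd)
  · have h5 : (C ((u⁻¹ : ℤ[X]ˣ) : ℤ[X]) * Ψ).natDegree = Ψ.natDegree := by
      rw [natDegree_C_mul]
      exact Units.ne_zero _
    rw [h5]
    exact lt_of_le_of_lt (natDegree_le_of_dvd hdvd hΘ0) hdeg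

end Pool.Agent.EDG.H30
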