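import Pool.Agent.Helper30_EDG.REL
import Pool.Agent.Helper30_EDG.COM
import Pool.Agent.Helper66_EDG.SET
import Pool.Agent.Helper24_EDG.BND
import Pool.Agent.Helper24_EDG.MOA
import Pool.Agent.Helper60_EDG.MOB
import Pool.Agent.Helper15_EDG.CNG
import Pool.Agent.Helper88_EDG.GRF
import Pool.Agent.Helper38_EDG.EXP
import Pool.Agent.Helper92_EDG.PIG
import Pool.Agent.Helper78_EDG.QDG
import Pool.Agent.Helper91_EDG.REM
import Pool.Agent.Helper74_EDG.SZE
import Pool.Agent.Helper26_EDG.NRM
import Pool.Agent.Helper85_EDG.THN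
import Pool.Agent.Helper64_EDG.TRU
import Pool.Agent.Helper40_EDG.DIV
import Pool.Agent.Helper55_EDG.RDX
import Pool.Agent.Helper42_EDG.UNA
import Pool.Agent.Helper73_EDG.UNI
import Pool.Agent.Helper41_EDG.HBA
import Pool.Agent.Helper40_EDG.HBC
import Pool.Agent.Helper73_EDG.MIN
import Pool.Agent.Helper75_EDG.RNK
import Pool.Agent.Helper40_EDG.SYL
import Pool.Agent.Helper7_EDG.BZM
import Pool.Agent.Helper73_EDG.BEZ
import Pool.Agent.Helper74_EDG.INV
import Pool.Agent.Helper74_EDG.PER
import Pool.Agent.Helper32_EDG.EXN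
import Pool.Agent.Helper95_EDG.FIN
import Pool.Agent.Helper30_EDG.CMP

/-! Every irreducible factor of every Gleason polynomial has exponentially large degree.

`G_n` is the monic integer polynomial of degree about `2 ^ (n - 1)` whose roots are the parameters
`c` for which `0` has exact period `n` under `z ↦ z ^ 2 + c`.  Its irreducible factors over `ℚ` are
the minimal polynomials over `ℚ` of these `c`. -/

set_option autoImplicit false

namespace Pool.Agent.Helper30_EDG.ExponentialDegree

open Polynomial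

/-- For every `n ≥ 1` and every parameter `c` for which `0` has exact period `n` under
`z ↦ z ^ 2 + c` (that is, every root `c` of the Gleason polynomial `G_n`), the degree of `c` over `ℚ`
is at least `2 ^ (⌊n / 40⌋ - 513)`.  Equivalently: every irreducible factor of `G_n` over `ℚ` has at
least this degree. -/
theorem result :
    ∀ (n : ℕ) (c : ℂ), 0 < n → Function.minimalPeriod (fun z : ℂ => z ^ 2 + c) 0 = n →
      2 ^ (n / 40) ≤ 2 ^ 513 * (minpoly ℚ c).natDegree := by
  have hRel : EDG.RelStmt :=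
    EDG.H30.rel EDG.H91.rem EDG.H15.cng EDG.H88.grf EDG.H38.exp Helper92_EDG.pig EDG.H78.qdg
      EDG.H74.sze EDG.H26.nrm EDG.H24.bnd EDG.H85.thn EDG.H64.tru EDG.H40.div
  have hCom : EDG.ComStmt :=
    EDG.H30.com hRel EDG.H24.moa EDG.H60.mob EDG.H42.una EDG.H55.rdx EDG.H73.uni EDG.H41.hba
      EDG.H40.hbc EDG.H73.min EDG.H75.rnk EDG.H40.syl EDG.H7.bzm EDG.H73.bez EDG.H74.inv
      EDG.H74.per EDG.H32.exn
  exact EDG.H95.fin EDG.H66.set hCom EDG.H30.cmp_all

end Pool.Agent.Helper30_EDG.ExponentialDegree
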