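import Pool.Agent.EDG.Stmts

/-! Squad EDG: the output REL of the relation block (helper30). -/

set_option autoImplicit false

namespace Pool.Agent.EDG.H30

open Polynomial Finset

/-- `g` does not divide a power of `2`. -/
theorem not_dvd_two_pow {n : ℕ} {g : ℤ[X]} (hc : Cyc n g) (k : ℕ) : ¬ g ∣ (2 : ℤ[X]) ^ k := by
  intro hd
  have h1 : g ∣ (2 : ℤ[X]) := hc.prime.dvd_of_dvd_pow hd
  have h2 : (2 : ℤ[X]) = C 2 := by rw [map_ofNat]
  rw [h2] at h1
  have h3 := natDegree_le_of_dvd h1 (by simp)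
  rw [natDegree_C] at h3
  have := hc.natDegree_pos
  omega

theorem rel (hRem : RemStmt) (hCng : CngStmt) (hGrf : GrfStmt) (hExp : ExpStmt) (hPig : PigStmt)
    (hQdg : QdgStmt) (hSze : SzeStmt) (hNrm : NrmStmt) (hBnd : BndStmt) (hThn : ThnStmt)
    (hTru : TruStmt) (hDiv : DivStmt) : RelStmt := by
  intro n g hc μ η l h1 h2 h3
  obtain ⟨Θ, hΘ0, hΘ, hv⟩ := hTru hRem hCng hGrf hExp hPig hQdg hSze hNrm hBnd hThn n g hc μ η l h1 h2 h3
  obtain ⟨k, Θ', hF, hr, he⟩ := hDiv _ _ Θ hΘ hΘ0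
  refine ⟨Θ', hr, hF, fun i => ?_⟩
  have h4 := hv i
  rw [he, map_mul, map_pow, map_ofNat] at h4
  rcases hc.prime.dvd_or_dvd h4 with h5 | h5
  · exact absurd h5 (not_dvd_two_pow hc k)
  · exact h5

end Pool.Agent.EDG.H30
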